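import Pool.Agent.Run7.h357.RV.Main

set_option autoImplicit false

/-!
# Vertices that look alike in corresponding vertex-deleted subgraphs

`G` is a finite graph, and the vertices `v₁` and `v₂` satisfy the second part of condition (H): for
some bijection `τ` of the vertices other than `v₁` onto the vertices other than `v₂` there are
isomorphisms `θ i` of `G - i` onto `G - τ i` which map `v₁` to `v₂`. (The first part,
`G - v₁` isomorphic to `G - v₂`, is not needed.)

**Theorem.** Some automorphism of `G` maps `v₁` to `v₂` in each of the following cases.

(1) `G` or its complement is disconnected.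
(2) Some vertex `i` other than `v₁` has no neighbour `x` and no non-neighbour `y` with
    `deg x = deg y + 1`. For example: no two vertices have degrees which differ by exactly one (all
    degrees are even, or all are odd, or `G` is regular); or all neighbours of `i` have minimum
    degree; or all non-neighbours of `i` have maximum degree.
(3) `G` has at least six vertices and some vertex `i` other than `v₁` has no neighbour `x` and no
    non-neighbour `y`, both different from `v₁`, with `deg x = deg y + 1` such that `v₁` is adjacent
    to both or to none of them. For example: `v₁` has a twin `i` (adjacent or not), or there is a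
    vertex `i` which has the neighbours which `v₁` does not have, or a neighbour `i` of `v₁` of
    degree one; generally, a vertex `i` whose neighbours, apart from `v₁`, are no vertices, all
    vertices, the neighbours of `v₁`, or the non-neighbours of `v₁`.

So in a counterexample to Q1 every vertex other than `v₁` (and, by symmetry, every vertex other than
`v₂`) has such a pair of a neighbour and a non-neighbour.

The proof of (3). For vertices `u` other than the root `v₁` consider the degree and the adjacency to
the root. The numbers of the vertices of the types satisfy, by double counting over the cards, linear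
equations whose solution is unique up to a multiple of alternating binomial coefficients; their
absolute values are too large if there are at least six vertices. So the numbers are the same for
the roots `v₁` and `v₂`, and so are the numbers of the neighbours of `i` and of `τ i` of each type.
By the assumption all vertices of one type of the card `G - i` are neighbours of `i` or none is, so
`θ i` maps the neighbours of `i` onto the neighbours of `τ i`, and extends to an automorphism.
-/

namespace Pool.Agent.Results.MP_50ecf8_co.ConsecutiveDegrees

/-- The degree of `x`. -/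
noncomputable def deg {V : Type} (G : SimpleGraph V) (x : V) : ℕ := {w : V | G.Adj x w}.ncard

/-- Let `v₁` and `v₂` be vertices of a finite graph `G`, and let `τ` be a bijection of the vertices
other than `v₁` onto those other than `v₂` with isomorphisms `G - i ≅ G - τ i` mapping `v₁` to `v₂`.
Then some automorphism of `G` maps `v₁` to `v₂` in each of the cases (1), (2), (3). -/
theorem result {V : Type} [Fintype V] (G : SimpleGraph V) (v₁ v₂ : V)
    (τ : {v : V // v ≠ v₁} ≃ {v : V // v ≠ v₂})
    (hτ : ∀ (i : V) (hi : i ≠ v₁),
      ∃ θ : G.induce ({i}ᶜ : Set V) ≃g G.induce ({(τ ⟨i, hi⟩ : V)}ᶜ : Set V),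
        ∀ x : ({i}ᶜ : Set V), (x : V) = v₁ → (θ x : V) = v₂) :
    -- (1)
    (¬ G.Connected ∨ ¬ Gᶜ.Connected → ∃ φ : G ≃g G, φ v₁ = v₂) ∧
    -- (2)
    ((∃ i, i ≠ v₁ ∧ ∀ x y, G.Adj i x → ¬ G.Adj i y → y ≠ i → deg G x ≠ deg G y + 1) →
      ∃ φ : G ≃g G, φ v₁ = v₂) ∧
    -- (3)
    (6 ≤ Fintype.card V →
      (∃ i, i ≠ v₁ ∧ ∀ x y, x ≠ v₁ → y ≠ v₁ → G.Adj i x → ¬ G.Adj i y → y ≠ i →
        (G.Adj x v₁ ↔ G.Adj y v₁) → deg G x ≠ deg G y + 1) →
      ∃ φ : G ≃g G, φ v₁ = v₂) := by
  obtain ⟨π, h⟩ := Run7.h357.RV.exists_HH G v₁ v₂ τ hτ
  have hdeg : ∀ x, deg G x = Run7.h357.RV.dg G x := by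
    intro x
    unfold deg Run7.h357.RV.dg
    rw [← Set.ncard_coe_finset]
    congr 1
    ext w
    simp [G.adj_comm]
  have hcon : ∀ K : SimpleGraph V, ¬ K.Connected → ∃ x y, ¬ Relation.ReflTransGen K.Adj x y := by
    intro K hK
    by_contra hcon
    push Not at hcon
    apply hK
    have : Nonempty V := ⟨v₁⟩
    exact ⟨fun x y => (SimpleGraph.reachable_iff_reflTransGen x y).mpr (hcon x y)⟩
  refine ⟨?_, ?_, ?_⟩
  · rintro (hG | hG)
    · exact Run7.h357.RV.disconnected h (hcon G hG)
    · exact Run7.h357.RV.from_compl (Run7.h357.RV.disconnected h.compl (hcon Gᶜ hG))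
  · rintro ⟨i, hi, hd⟩
    refine Run7.h357.RV.degrees h hi ?_
    intro x y h1 h2 h3
    rw [← hdeg, ← hdeg]
    exact hd x y h1 h2 h3
  · rintro hn ⟨i, hi, hd⟩
    refine Run7.h357.RV.refined h hn hi ?_
    intro x y h1 h2 h3 h4 h5 h6
    rw [← hdeg, ← hdeg]
    exact hd x y h1 h2 h3 h4 h5 h6

end Pool.Agent.Results.MP_50ecf8_co.ConsecutiveDegrees
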